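import Pool.Agent.FrobDom.Main

set_option autoImplicit false

open PowerSeries

/-!
# `R` is complete
-/

namespace Pool.Agent.FrobDom

/-- order at least `n` -/
def Od {L : Type*} [CommRing L] (n : ℕ) (f : PowerSeries (PowerSeries L)) : Prop :=
  ∀ i j : ℕ, i + j < n → co i j f = 0

section

variable {L : Type*} [CommRing L]

lemma Od.mul {a b : ℕ} {f g : PowerSeries (PowerSeries L)} (hf : Od a f) (hg : Od b g) :
    Od (a + b) (f * g) := by
  intro i j hij
  show coeff j (coeff i (f * g)) = 0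
  rw [PowerSeries.coeff_mul, map_sum]
  refine Finset.sum_eq_zero fun u hu => ?_
  rw [PowerSeries.coeff_mul]
  refine Finset.sum_eq_zero fun v hv => ?_
  rw [Finset.HasAntidiagonal.mem_antidiagonal] at hu hv
  by_cases h : u.1 + v.1 < a
  · have h1 : coeff v.1 (coeff u.1 f) = 0 := hf _ _ h
    rw [h1, zero_mul]
  · have h1 : coeff v.2 (coeff u.2 g) = 0 := hg _ _ (by omega)
    rw [h1, mul_zero]

lemma M2_of_Od {f : PowerSeries (PowerSeries L)} {n : ℕ} (h : Od n f) (hn : 2 ≤ n) : M2 f :=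
  ⟨h 0 0 (by omega), h 1 0 (by omega), h 0 1 (by omega)⟩

lemma Od.decomp {f : PowerSeries (PowerSeries L)} {n : ℕ} (h : Od (n + 1) f) :
    ∃ g h : PowerSeries (PowerSeries L), Od n g ∧ Od n h ∧ f = g * X + h * C X := by
  have h0 : X ∣ coeff 0 f := by
    rw [PowerSeries.X_dvd_iff, ← PowerSeries.coeff_zero_eq_constantCoeff_apply]
    exact h 0 0 (by omega)
  obtain ⟨b, hb⟩ := h0
  refine ⟨PowerSeries.mk fun i => coeff (i + 1) f, C b, ?_, ?_, ?_⟩
  · intro i j hij
    show coeff j (coeff i (PowerSeries.mk fun i => coeff (i + 1) f)) = 0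
    rw [PowerSeries.coeff_mk]
    exact h _ _ (by omega)
  · intro i j hij
    show coeff j (coeff i (C b)) = 0
    rw [PowerSeries.coeff_C]
    split_ifs with hi
    · have h1 := h 0 (j + 1) (by omega)
      have h2 : coeff (j + 1) (coeff 0 f) = coeff j b := by
        rw [hb, mul_comm, PowerSeries.coeff_succ_mul_X]
      rw [← h2]
      exact h1
    · rw [map_zero]
  · have h1 := PowerSeries.eq_shift_mul_X_add_const f
    rw [← map_mul, mul_comm b X, ← hb, PowerSeries.coeff_zero_eq_constantCoeff_apply]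
    exact h1

end

variable {k L : Type*} [Field k] [CommRing L] [Algebra k L] {c₁ c₂ : L →ₗ[k] k}

/-- The ideal of the elements of `R` of order at least `n`. -/
def OI (c₁ c₂ : L →ₗ[k] k) (n : ℕ) : Ideal (Rg c₁ c₂) where
  carrier := {r | Od n (r : PowerSeries (PowerSeries L))}
  add_mem' := by
    intro a b ha hb i j hij
    show co i j ((a : PowerSeries (PowerSeries L)) + (b : PowerSeries (PowerSeries L))) = 0
    rw [co_add, ha i j hij, hb i j hij, add_zero]
  zero_mem' := by
    intro i j _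
    exact co_zero i j
  smul_mem' := by
    intro a b hb
    have h0 : Od 0 (a : PowerSeries (PowerSeries L)) := fun i j h => absurd h (Nat.not_lt_zero _)
    have := h0.mul hb
    rw [zero_add] at this
    exact this

lemma mem_OI {n : ℕ} {r : Rg c₁ c₂} : r ∈ OI c₁ c₂ n ↔ Od n (r : PowerSeries (PowerSeries L)) :=
  Iff.rfl

lemma OI_mul (a b : ℕ) : OI c₁ c₂ a * OI c₁ c₂ b ≤ OI c₁ c₂ (a + b) := by
  rw [Ideal.mul_le]
  intro r hr s hs
  exact Od.mul hr hs

section loc

variable [Nontrivial L] [IsLocalRing (Rg c₁ c₂)]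

lemma max_pow_le (n : ℕ) : IsLocalRing.maximalIdeal (Rg c₁ c₂) ^ n ≤ OI c₁ c₂ n := by
  induction n with
  | zero =>
    intro r _
    exact fun i j h => absurd h (Nat.not_lt_zero _)
  | succ n ih =>
    rw [pow_succ]
    refine le_trans (Ideal.mul_mono ih ?_) (OI_mul n 1)
    intro r hr
    rw [mem_max_iff] at hr
    intro i j hij
    have h1 : i = 0 := by omega
    have h2 : j = 0 := by omega
    rw [h1, h2]
    exact hr

omit [Nontrivial L] [IsLocalRing (Rg c₁ c₂)] in
lemma mem_pow_of_Od (h1 : c₁ 1 = 0) (h2 : c₂ 1 = 0)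
    (hc : ∀ a b : k, ∃ s : L, c₁ s = a ∧ c₂ s = b) (n : ℕ) :
    ∀ r : Rg c₁ c₂, Od (n + 2) (r : PowerSeries (PowerSeries L)) →
      r ∈ Ideal.span {xx c₁ h2, yy c₂ h1} ^ (n + 1) := by
  induction n with
  | zero =>
    intro r hr
    rw [zero_add, pow_one]
    exact mem_span_of_M2 h1 h2 hc r (M2_of_Od hr (by omega))
  | succ n ih =>
    intro r hr
    obtain ⟨g, h, hg, hh, e⟩ := Od.decomp (n := n + 2) hr
    have hgR : g ∈ Rg c₁ c₂ := mem_of_M2 (M2_of_Od hg (by omega))
    have hhR : h ∈ Rg c₁ c₂ := mem_of_M2 (M2_of_Od hh (by omega))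
    have er : r = (⟨g, hgR⟩ : Rg c₁ c₂) * xx c₁ h2 + (⟨h, hhR⟩ : Rg c₁ c₂) * yy c₂ h1 :=
      Subtype.ext e
    rw [er, pow_succ]
    exact Ideal.add_mem _ (Ideal.mul_mem_mul (ih _ hg) (Ideal.subset_span (by simp)))
      (Ideal.mul_mem_mul (ih _ hh) (Ideal.subset_span (by simp)))

theorem complete (h1 : c₁ 1 = 0) (h2 : c₂ 1 = 0)
    (hc : ∀ a b : k, ∃ s : L, c₁ s = a ∧ c₂ s = b) :
    IsAdicComplete (IsLocalRing.maximalIdeal (Rg c₁ c₂)) (Rg c₁ c₂) := by
  have key : ∀ (n : ℕ) (r : Rg c₁ c₂), Od (n + 2) (r : PowerSeries (PowerSeries L)) →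
      r ∈ IsLocalRing.maximalIdeal (Rg c₁ c₂) ^ n := by
    intro n r hr
    exact Ideal.pow_le_pow_right (Nat.le_succ n) (Ideal.pow_right_mono (span_le h1 h2) (n + 1)
      (mem_pow_of_Od h1 h2 hc n r hr))
  rw [isAdicComplete_iff]
  constructor
  · constructor
    intro r hr
    apply Subtype.ext
    ext i j
    have h3 := hr (i + j + 1)
    rw [smul_eq_mul, Ideal.mul_top, SModEq.zero] at h3
    have h4 := max_pow_le _ h3 i j (Nat.lt_succ_self _)
    show co i j (r : PowerSeries (PowerSeries L)) = coeff j (coeff i 0)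
    rw [h4, map_zero, map_zero]
  · constructor
    intro f hf
    have hf' : ∀ {m n : ℕ}, m ≤ n → f m - f n ∈ IsLocalRing.maximalIdeal (Rg c₁ c₂) ^ m := by
      intro m n hmn
      have h3 := hf hmn
      rw [smul_eq_mul, Ideal.mul_top, SModEq.sub_mem] at h3
      exact h3
    have hO : ∀ {m n : ℕ}, m ≤ n → ∀ i j, i + j < m →
        co i j (f m : PowerSeries (PowerSeries L)) = co i j (f n : PowerSeries (PowerSeries L)) := by
      intro m n hmn i j hij
      have h3 : co i j ((f m : PowerSeries (PowerSeries L)) -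
        (f n : PowerSeries (PowerSeries L))) = 0 := max_pow_le _ (hf' hmn) i j hij
      rw [co_sub] at h3
      exact sub_eq_zero.1 h3
    let F : PowerSeries (PowerSeries L) := PowerSeries.mk fun i => PowerSeries.mk fun j =>
      co i j (f (i + j + 1) : PowerSeries (PowerSeries L))
    have hF : ∀ n, Od n (F - (f n : PowerSeries (PowerSeries L))) := by
      intro n i j hij
      rw [co_sub]
      have h3 : co i j F = co i j (f (i + j + 1) : PowerSeries (PowerSeries L)) := by
        show coeff j (coeff i F) = _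
        rw [PowerSeries.coeff_mk, PowerSeries.coeff_mk]
      rw [h3, hO (m := i + j + 1) (n := n) hij i j (Nat.lt_succ_self _), sub_self]
    have hFR : F ∈ Rg c₁ c₂ := by
      have h3 : F = (F - (f 2 : PowerSeries (PowerSeries L))) +
        (f 2 : PowerSeries (PowerSeries L)) := by ring
      rw [h3]
      exact add_mem (mem_of_M2 (M2_of_Od (hF 2) le_rfl)) (f 2).2
    refine ⟨⟨F, hFR⟩, fun n => ?_⟩
    rw [smul_eq_mul, Ideal.mul_top, SModEq.sub_mem]
    have h3 : f n - (⟨F, hFR⟩ : Rg c₁ c₂) = (f n - f (n + 2)) - ((⟨F, hFR⟩ : Rg c₁ c₂) - f (n + 2)) := by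
      ring
    rw [h3]
    exact Ideal.sub_mem _ (hf' (by omega)) (key n _ (hF (n + 2)))

end loc

end Pool.Agent.FrobDom
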