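import Pool.Agent.FrobDom.Main

set_option autoImplicit false

open PowerSeries

/-!
# Existence of the functionals and of the coefficient algebras
-/

namespace Pool.Agent.FrobDom

/-- functionals `c₁, c₂` which vanish at `1` and are independent -/
lemma exists_functionals (k L : Type*) [Field k] [CommRing L] [Algebra k L] [Nontrivial L]
    [Module.Finite k L] (h3 : 3 ≤ Module.finrank k L) :
    ∃ c₁ c₂ : L →ₗ[k] k, c₁ 1 = 0 ∧ c₂ 1 = 0 ∧ ∀ a b : k, ∃ s : L, c₁ s = a ∧ c₂ s = b := by
  let N : Submodule k L := Submodule.span k {(1 : L)}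
  have hN : Module.finrank k N = 1 := finrank_span_singleton one_ne_zero
  have hQ := Submodule.finrank_quotient_add_finrank N
  rw [hN] at hQ
  have h2 : 2 ≤ Module.finrank k (L ⧸ N) := by omega
  let b := Module.finBasis k (L ⧸ N)
  let i : Fin (Module.finrank k (L ⧸ N)) := ⟨0, by omega⟩
  let j : Fin (Module.finrank k (L ⧸ N)) := ⟨1, by omega⟩
  have hij : i ≠ j := by
    intro h
    have := congrArg Fin.val h
    exact absurd this (by norm_num [i, j])
  have h1 : N.mkQ (1 : L) = 0 := by
    rw [Submodule.mkQ_apply, Submodule.Quotient.mk_eq_zero]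
    exact Submodule.subset_span rfl
  refine ⟨(b.coord i).comp N.mkQ, (b.coord j).comp N.mkQ, ?_, ?_, ?_⟩
  · rw [LinearMap.comp_apply, h1, map_zero]
  · rw [LinearMap.comp_apply, h1, map_zero]
  · intro u v
    obtain ⟨s, hs⟩ := N.mkQ_surjective (u • b i + v • b j)
    refine ⟨s, ?_, ?_⟩
    · rw [LinearMap.comp_apply, hs, map_add, map_smul, map_smul, Module.Basis.coord_apply,
        Module.Basis.coord_apply, b.repr_self, b.repr_self, Finsupp.single_eq_same,
        Finsupp.single_eq_of_ne hij]
      simp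
    · rw [LinearMap.comp_apply, hs, map_add, map_smul, map_smul, Module.Basis.coord_apply,
        Module.Basis.coord_apply, b.repr_self, b.repr_self, Finsupp.single_eq_same,
        Finsupp.single_eq_of_ne hij.symm]
      simp

lemma isReduced_of_root {k L : Type*} [Field k] [CommRing L] [Algebra k L] [Nontrivial L]
    (p : ℕ) (hp : p.Prime)
    (hL : ∀ s : L, (∃ a : k, algebraMap k L a = s ^ p) → ∃ a : k, algebraMap k L a = s) :
    IsReduced L := by
  rw [isReduced_iff_pow_one_lt p hp.one_lt]
  intro s hs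
  obtain ⟨a, ha⟩ := hL s ⟨0, by rw [map_zero, hs]⟩
  have h1 : a ^ p = 0 := (algebraMap k L).injective (by rw [map_pow, ha, hs, map_zero])
  rw [← ha, pow_eq_zero_iff hp.ne_zero |>.1 h1, map_zero]

lemma root_of_separable (k L : Type*) [Field k] [Field L] [Algebra k L] (p : ℕ) (hp : p.Prime)
    [CharP k p] [Algebra.IsSeparable k L] (s : L) (hs : ∃ a : k, algebraMap k L a = s ^ p) :
    ∃ a : k, algebraMap k L a = s := by
  have : ExpChar k p := ExpChar.prime hp
  have h1 : s ∈ perfectClosure k L := by
    rw [mem_perfectClosure_iff_pow_mem p]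
    obtain ⟨a, ha⟩ := hs
    exact ⟨1, a, by rw [pow_one, ha]⟩
  rw [perfectClosure.eq_bot_of_isSeparable] at h1
  exact IntermediateField.mem_bot.1 h1

lemma root_of_prod (k : Type*) [Field k] (p : ℕ) (hp : p.Prime) [CharP k p] (s : k × k × k)
    (hs : ∃ a : k, algebraMap k (k × k × k) a = s ^ p) :
    ∃ a : k, algebraMap k (k × k × k) a = s := by
  have : ExpChar k p := ExpChar.prime hp
  obtain ⟨a, ha⟩ := hs
  obtain ⟨x, y, z⟩ := s
  have h1 : a = x ^ p := congrArg Prod.fst ha
  have h2 : a = y ^ p := congrArg (fun t : k × k × k => t.2.1) ha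
  have h3 : a = z ^ p := congrArg (fun t : k × k × k => t.2.2) ha
  have hinj : Function.Injective (frobenius k p) := frobenius_inj k p
  have e1 : x = y := hinj (by rw [frobenius_def, frobenius_def, ← h1, ← h2])
  have e2 : x = z := hinj (by rw [frobenius_def, frobenius_def, ← h1, ← h3])
  exact ⟨x, by rw [← e1, ← e2]; rfl⟩

end Pool.Agent.FrobDom
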