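import Pool.Agent.FrobDom.Ring

set_option autoImplicit false

open PowerSeries

/-!
# Frobenius closed parameter ideals in complete local domains: proofs
-/

namespace Pool.Agent.FrobDom

/-! ### Noetherian -/

lemma fin_ps {A B : Type*} [CommRing A] [CommRing B] [Algebra A B] {n : ℕ} (b : Fin n → B)
    (hb : ∀ z : B, ∃ a : Fin n → A, z = ∑ i, algebraMap A B (a i) * b i)
    (f : PowerSeries B) : ∃ a : Fin n → PowerSeries A,
      f = ∑ i, algebraMap (PowerSeries A) (PowerSeries B) (a i) * C (b i) := by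
  choose a ha using fun m => hb (coeff m f)
  refine ⟨fun i => PowerSeries.mk fun m => a m i, ?_⟩
  ext m
  rw [map_sum]
  have h1 : ∀ i : Fin n, coeff m (algebraMap (PowerSeries A) (PowerSeries B)
      (PowerSeries.mk fun m => a m i) * C (b i)) = algebraMap A B (a m i) * b i := by
    intro i
    rw [PowerSeries.coeff_mul_C]
    congr 1
    show coeff m (PowerSeries.map (algebraMap A B) _) = _
    rw [PowerSeries.coeff_map, PowerSeries.coeff_mk]
  rw [ha m]
  exact Finset.sum_congr rfl fun i _ => (h1 i).symm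

lemma finite_of_span {A B : Type*} [CommRing A] [CommRing B] [Algebra A B] {n : ℕ}
    (b : Fin n → B) (hb : ∀ z : B, ∃ a : Fin n → A, z = ∑ i, algebraMap A B (a i) * b i) :
    Module.Finite A B := by
  classical
  refine ⟨⟨Finset.image b Finset.univ, ?_⟩⟩
  rw [eq_top_iff]
  rintro z -
  obtain ⟨a, rfl⟩ := hb z
  refine Submodule.sum_mem _ fun i _ => ?_
  rw [← Algebra.smul_def]
  refine Submodule.smul_mem _ _ (Submodule.subset_span ?_)
  rw [Finset.mem_coe, Finset.mem_image]
  exact ⟨i, Finset.mem_univ _, rfl⟩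

lemma finite_S (k L : Type*) [Field k] [CommRing L] [Algebra k L] [Module.Finite k L] :
    Module.Finite (PowerSeries (PowerSeries k)) (PowerSeries (PowerSeries L)) := by
  obtain ⟨n, b, hb⟩ := Module.Finite.exists_fin (R := k) (M := L)
  have h0 : ∀ z : L, ∃ a : Fin n → k, z = ∑ i, algebraMap k L (a i) * b i := by
    intro z
    have hz : z ∈ Submodule.span k (Set.range b) := by rw [hb]; exact Submodule.mem_top
    obtain ⟨a, ha⟩ := (Submodule.mem_span_range_iff_exists_fun k).1 hz
    refine ⟨a, ?_⟩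
    rw [← ha]
    exact Finset.sum_congr rfl fun i _ => Algebra.smul_def _ _
  exact finite_of_span _ (fin_ps _ (fin_ps _ h0))

variable {k L : Type*} [Field k] [CommRing L] [Algebra k L] {c₁ c₂ : L →ₗ[k] k}

lemma co_map (i j : ℕ) (z : PowerSeries (PowerSeries k)) :
    co i j (algebraMap (PowerSeries (PowerSeries k)) (PowerSeries (PowerSeries L)) z) =
      algebraMap k L (co i j z) := by
  show coeff j (coeff i (PowerSeries.map (algebraMap (PowerSeries k) (PowerSeries L)) z)) = _
  rw [PowerSeries.coeff_map]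
  show coeff j (PowerSeries.map (algebraMap k L) _) = _
  rw [PowerSeries.coeff_map]
  rfl

lemma map_mem_Rg (h1 : c₁ 1 = 0) (h2 : c₂ 1 = 0) (z : PowerSeries (PowerSeries k)) :
    algebraMap (PowerSeries (PowerSeries k)) (PowerSeries (PowerSeries L)) z ∈ Rg c₁ c₂ := by
  rw [mem_Rg, co_map, co_map, co_map, Algebra.algebraMap_eq_smul_one (co 1 0 z),
    Algebra.algebraMap_eq_smul_one (co 0 1 z), map_smul, map_smul, h1, h2]
  exact ⟨⟨_, rfl⟩, by simp⟩

lemma isNoetherianRing_Rg [Module.Finite k L] (h1 : c₁ 1 = 0) (h2 : c₂ 1 = 0) :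
    IsNoetherianRing (Rg c₁ c₂) := by
  let _ : Algebra (PowerSeries (PowerSeries k)) (Rg c₁ c₂) :=
    RingHom.toAlgebra (RingHom.codRestrict
      (algebraMap (PowerSeries (PowerSeries k)) (PowerSeries (PowerSeries L))) (Rg c₁ c₂)
      (map_mem_Rg h1 h2))
  have := finite_S k L
  have : IsNoetherian (PowerSeries (PowerSeries k)) (PowerSeries (PowerSeries L)) :=
    isNoetherian_of_isNoetherianRing_of_finite _ _
  let f : Rg c₁ c₂ →ₗ[PowerSeries (PowerSeries k)] PowerSeries (PowerSeries L) :=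
    { toFun := Subtype.val
      map_add' := fun _ _ => rfl
      map_smul' := fun a r => by
        rw [Algebra.smul_def, RingHom.id_apply, Algebra.smul_def]
        rfl }
  have : IsNoetherian (PowerSeries (PowerSeries k)) (Rg c₁ c₂) :=
    isNoetherian_of_injective f Subtype.val_injective
  exact isNoetherian_of_tower (PowerSeries (PowerSeries k)) inferInstance

/-! ### local, domain, reduced, characteristic -/

lemma isLocalRing_Rg [Nontrivial L] : IsLocalRing (Rg c₁ c₂) := by
  refine IsLocalRing.of_nonunits_add ?_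
  intro a b ha hb
  rw [mem_nonunits_iff, isUnit_iff', not_not] at ha hb ⊢
  show co 0 0 ((a : PowerSeries (PowerSeries L)) + (b : PowerSeries (PowerSeries L))) = 0
  rw [co_add, ha, hb, add_zero]

lemma isDomain_Rg [IsDomain L] : IsDomain (Rg c₁ c₂) := inferInstance

lemma isReduced_ps {A : Type*} [CommRing A] [IsReduced A] : IsReduced (PowerSeries A) := by
  rw [isReduced_iff_pow_one_lt 2 one_lt_two]
  intro f hf
  have key : ∀ n, ∀ m < n, coeff m f = 0 := by
    intro n
    induction n with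
    | zero => intro m hm; exact absurd hm (Nat.not_lt_zero m)
    | succ n ih =>
      intro m hm
      rcases Nat.lt_succ_iff_lt_or_eq.1 hm with h | h
      · exact ih m h
      subst h
      obtain ⟨g, hg⟩ := PowerSeries.X_pow_dvd_iff.2 ih
      have h2 : coeff (m + m) (f ^ 2) = coeff m f * coeff m f := by
        have e1 : f ^ 2 = X ^ (m + m) * (g * g) := by rw [hg]; ring
        have e2 : coeff m f = constantCoeff g := by
          rw [hg]
          have := PowerSeries.coeff_X_pow_mul g m 0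
          rw [zero_add] at this
          rw [this, PowerSeries.coeff_zero_eq_constantCoeff_apply]
        have e3 := PowerSeries.coeff_X_pow_mul (g * g) (m + m) 0
        rw [zero_add] at e3
        rw [e1, e3, e2, PowerSeries.coeff_zero_eq_constantCoeff_apply, map_mul]
      rw [hf, map_zero] at h2
      have h3 : coeff m f ^ 2 = 0 := by rw [pow_two]; exact h2.symm
      exact pow_eq_zero_iff (two_ne_zero) |>.1 h3
  ext m
  rw [map_zero]
  exact key (m + 1) m (Nat.lt_succ_self m)

lemma isReduced_Rg [IsReduced L] : IsReduced (Rg c₁ c₂) := by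
  have : IsReduced (PowerSeries L) := isReduced_ps
  have : IsReduced (PowerSeries (PowerSeries L)) := isReduced_ps
  exact isReduced_of_injective (Rg c₁ c₂).subtype Subtype.val_injective

lemma charP_Rg (p : ℕ) [CharP k p] [Nontrivial L] : CharP (Rg c₁ c₂) p := by
  have : CharP L p := charP_of_injective_algebraMap (algebraMap k L).injective p
  have : CharP (PowerSeries L) p :=
    charP_of_injective_ringHom (PowerSeries.C_injective (R := L)) p
  have : CharP (PowerSeries (PowerSeries L)) p :=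
    charP_of_injective_ringHom (PowerSeries.C_injective (R := PowerSeries L)) p
  exact RingHom.charP (Rg c₁ c₂).subtype Subtype.val_injective p

/-! ### parameters and dimension -/

lemma mem_max_iff [Nontrivial L] [IsLocalRing (Rg c₁ c₂)] {r : Rg c₁ c₂} :
    r ∈ IsLocalRing.maximalIdeal (Rg c₁ c₂) ↔ co 0 0 (r : PowerSeries (PowerSeries L)) = 0 := by
  rw [IsLocalRing.mem_maximalIdeal, mem_nonunits_iff, isUnit_iff', not_not]

lemma co_xx (h2 : c₂ 1 = 0) :
    ((xx c₁ h2 : Rg c₁ c₂) : PowerSeries (PowerSeries L)) = X := rfl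
lemma co_yy (h1 : c₁ 1 = 0) :
    ((yy c₂ h1 : Rg c₁ c₂) : PowerSeries (PowerSeries L)) = C X := rfl

section par

variable [Nontrivial L] [IsLocalRing (Rg c₁ c₂)] (h1 : c₁ 1 = 0) (h2 : c₂ 1 = 0)

include h1 h2

lemma span_le : Ideal.span {xx c₁ h2, yy c₂ h1} ≤ IsLocalRing.maximalIdeal (Rg c₁ c₂) := by
  rw [Ideal.span_le]
  rintro z (rfl | rfl)
  · exact mem_max_iff.2 (co00_X)
  · exact mem_max_iff.2 (co00_Y)

lemma radical_eq (hc : ∀ a b : k, ∃ s : L, c₁ s = a ∧ c₂ s = b) :
    (Ideal.span {xx c₁ h2, yy c₂ h1}).radical = IsLocalRing.maximalIdeal (Rg c₁ c₂) := by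
  apply le_antisymm
  · rw [Ideal.IsPrime.radical_le_iff (IsLocalRing.maximalIdeal.isMaximal _).isPrime]
    exact span_le h1 h2
  · intro r hr
    rw [mem_max_iff] at hr
    refine ⟨2, mem_span_of_M2 h1 h2 hc _ ?_⟩
    show M2 ((r : PowerSeries (PowerSeries L)) ^ 2)
    rw [pow_two]
    refine ⟨?_, ?_, ?_⟩
    · rw [co00_mul, hr, zero_mul]
    · rw [co10_mul, hr, zero_mul, mul_zero, add_zero]
    · rw [co01_mul, hr, zero_mul, mul_zero, add_zero]

lemma dim_le [IsNoetherianRing (Rg c₁ c₂)] (hc : ∀ a b : k, ∃ s : L, c₁ s = a ∧ c₂ s = b) :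
    ringKrullDim (Rg c₁ c₂) ≤ (2 : WithBot ℕ∞) := by
  rw [← IsLocalRing.maximalIdeal_height_eq_ringKrullDim]
  have hmin : IsLocalRing.maximalIdeal (Rg c₁ c₂) ∈
      (Ideal.span (({xx c₁ h2, yy c₂ h1} : Set (Rg c₁ c₂)))).minimalPrimes := by
    refine ⟨⟨(IsLocalRing.maximalIdeal.isMaximal _).isPrime, span_le h1 h2⟩, ?_⟩
    rintro q ⟨hq, hle⟩ _
    rw [← radical_eq h1 h2 hc]
    exact hq.radical_le_iff.2 hle
  have := Ideal.height_le_card_of_mem_minimalPrimes_span (Set.toFinite _) hmin
  have h2' : (({xx c₁ h2, yy c₂ h1} : Set (Rg c₁ c₂))).ncard ≤ 2 := by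
    refine (Set.ncard_insert_le _ _).trans ?_
    rw [Set.ncard_singleton]
  have h3 : (IsLocalRing.maximalIdeal (Rg c₁ c₂)).height ≤ (2 : ℕ∞) :=
    this.trans (by exact_mod_cast h2')
  exact WithBot.coe_le_coe.2 h3

lemma dim_ge : (2 : WithBot ℕ∞) ≤ ringKrullDim (Rg c₁ c₂) := by
  obtain ⟨𝔫, h𝔫⟩ := Ideal.exists_maximal L
  have : IsDomain (L ⧸ 𝔫) := Ideal.Quotient.isDomain 𝔫
  let φ : Rg c₁ c₂ →+* PowerSeries (PowerSeries (L ⧸ 𝔫)) :=
    (PowerSeries.map (PowerSeries.map (Ideal.Quotient.mk 𝔫))).comp (Rg c₁ c₂).subtype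
  let ψ : Rg c₁ c₂ →+* PowerSeries (L ⧸ 𝔫) := (constantCoeff).comp φ
  let P0 : PrimeSpectrum (Rg c₁ c₂) := ⟨RingHom.ker φ, RingHom.ker_isPrime φ⟩
  let P1 : PrimeSpectrum (Rg c₁ c₂) := ⟨RingHom.ker ψ, RingHom.ker_isPrime ψ⟩
  let P2 : PrimeSpectrum (Rg c₁ c₂) := ⟨IsLocalRing.maximalIdeal _,
    (IsLocalRing.maximalIdeal.isMaximal _).isPrime⟩
  have hφx : φ (xx c₁ h2) = X := by
    show PowerSeries.map (PowerSeries.map (Ideal.Quotient.mk 𝔫)) X = X
    rw [PowerSeries.map_X]
  have hψx : ψ (xx c₁ h2) = 0 := by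
    show constantCoeff (φ (xx c₁ h2)) = 0
    rw [hφx, PowerSeries.constantCoeff_X]
  have hψy : ψ (yy c₂ h1) = X := by
    show constantCoeff (PowerSeries.map (PowerSeries.map (Ideal.Quotient.mk 𝔫)) (C X)) = X
    rw [PowerSeries.map_C, PowerSeries.constantCoeff_C, PowerSeries.map_X]
  have h01 : P0 < P1 := by
    rw [← PrimeSpectrum.asIdeal_lt_asIdeal]
    refine lt_of_le_of_ne ?_ ?_
    · intro r hr
      show constantCoeff (φ r) = 0
      have : φ r = 0 := hr
      rw [this, map_zero]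
    · intro h
      have hx : xx c₁ h2 ∈ RingHom.ker ψ := hψx
      have : xx c₁ h2 ∈ RingHom.ker φ := by
        have h' : RingHom.ker φ = RingHom.ker ψ := h
        rw [h']; exact hx
      rw [RingHom.mem_ker, hφx] at this
      exact PowerSeries.X_ne_zero this
  have h12 : P1 < P2 := by
    rw [← PrimeSpectrum.asIdeal_lt_asIdeal]
    refine lt_of_le_of_ne ?_ ?_
    · exact IsLocalRing.le_maximalIdeal (RingHom.ker_isPrime ψ).ne_top
    · intro h
      have hy : yy c₂ h1 ∈ IsLocalRing.maximalIdeal (Rg c₁ c₂) := mem_max_iff.2 co00_Y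
      have : yy c₂ h1 ∈ RingHom.ker ψ := by
        have h' : RingHom.ker ψ = IsLocalRing.maximalIdeal (Rg c₁ c₂) := h
        rw [h']; exact hy
      rw [RingHom.mem_ker, hψy] at this
      exact PowerSeries.X_ne_zero this
  let s : LTSeries (PrimeSpectrum (Rg c₁ c₂)) :=
    { length := 2
      toFun := ![P0, P1, P2]
      step := by
        intro i
        fin_cases i
        · exact h01
        · exact h12 }
  have := Order.LTSeries.length_le_krullDim s
  exact_mod_cast this

end par

/-! ### Frobenius closure -/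

/-- The ideal `(x,y)` is Frobenius closed (`p` the characteristic). -/
def FClosed {R : Type*} [CommRing R] (p : ℕ) (x y : R) : Prop :=
  ∀ (r : R) (n : ℕ), r ^ p ^ n ∈ Ideal.span {x ^ p ^ n, y ^ p ^ n} → r ∈ Ideal.span {x, y}

lemma root_mem (p : ℕ) (hL : ∀ s : L, (∃ a : k, algebraMap k L a = s ^ p) →
    ∃ a : k, algebraMap k L a = s) (n : ℕ) : ∀ s : L, (∃ a : k, algebraMap k L a = s ^ p ^ n) →
    ∃ a : k, algebraMap k L a = s := by
  induction n with
  | zero => intro s hs; simpa using hs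
  | succ n ih =>
    intro s hs
    rw [pow_succ, pow_mul] at hs
    exact ih s (hL _ hs)

theorem closed (p : ℕ) (hp : p.Prime) (h1 : c₁ 1 = 0) (h2 : c₂ 1 = 0) [Nontrivial L]
    (hc : ∀ a b : k, ∃ s : L, c₁ s = a ∧ c₂ s = b)
    (hL : ∀ s : L, (∃ a : k, algebraMap k L a = s ^ p) → ∃ a : k, algebraMap k L a = s) :
    FClosed p (xx c₁ h2 : Rg c₁ c₂) (yy c₂ h1) := by
  intro r n hr
  rw [Ideal.mem_span_pair] at hr
  obtain ⟨u, v, huv⟩ := hr
  set q := p ^ n with hq
  have hq0 : q ≠ 0 := pow_ne_zero _ hp.ne_zero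
  have hS : (u : PowerSeries (PowerSeries L)) * X ^ q + (v : PowerSeries (PowerSeries L)) *
      (C X) ^ q = (r : PowerSeries (PowerSeries L)) ^ q := congrArg Subtype.val huv
  obtain ⟨⟨a0, ha0⟩, hr2⟩ := mem_Rg.1 r.2
  obtain ⟨⟨au, hau⟩, -⟩ := mem_Rg.1 u.2
  obtain ⟨⟨av, hav⟩, -⟩ := mem_Rg.1 v.2
  -- the constant term of `r` vanishes
  have hr0 : co 0 0 (r : PowerSeries (PowerSeries L)) = 0 := by
    have h3 := congrArg (co 0 0) hS
    rw [co_add, co00_mul, co00_mul, co00_pow, co00_pow, co00_pow, co00_X, co00_Y,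
      zero_pow hq0, mul_zero, mul_zero, add_zero, ← ha0, ← map_pow] at h3
    have h4 : a0 ^ q = 0 := (algebraMap k L).injective (by rw [← h3, map_zero])
    rw [← ha0, pow_eq_zero_iff hq0 |>.1 h4, map_zero]
  -- the coefficient of `x`
  have hx : ∃ a : k, algebraMap k L a = co 1 0 (r : PowerSeries (PowerSeries L)) := by
    apply root_mem p hL n
    let e : PowerSeries (PowerSeries L) →+* PowerSeries L :=
      PowerSeries.map (constantCoeff (R := L))
    have he : ∀ (z : PowerSeries (PowerSeries L)) (m : ℕ), coeff m (e z) = co m 0 z := by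
      intro z m
      show coeff m (PowerSeries.map (constantCoeff (R := L)) z) = _
      rw [PowerSeries.coeff_map, ← PowerSeries.coeff_zero_eq_constantCoeff_apply]
      rfl
    have hd : X ∣ e r := by
      rw [PowerSeries.X_dvd_iff, ← PowerSeries.coeff_zero_eq_constantCoeff_apply, he]
      exact hr0
    obtain ⟨w, hw⟩ := hd
    have h3 := congrArg e hS
    rw [map_add, map_mul, map_mul, map_pow, map_pow, map_pow, hw] at h3
    have eX : e X = X := PowerSeries.map_X _
    have eY : e (C X) = 0 := by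
      show PowerSeries.map (constantCoeff (R := L)) (C X) = 0
      rw [PowerSeries.map_C, PowerSeries.constantCoeff_X, map_zero]
    rw [eX, eY, zero_pow hq0, mul_zero, add_zero, mul_pow] at h3
    have h4 := congrArg (coeff (0 + q)) h3
    rw [PowerSeries.coeff_mul_X_pow, PowerSeries.coeff_X_pow_mul, he] at h4
    refine ⟨au, ?_⟩
    have h5 : co 1 0 (r : PowerSeries (PowerSeries L)) = constantCoeff w := by
      rw [← he, hw, mul_comm]
      have := PowerSeries.coeff_succ_mul_X 0 w
      rw [zero_add] at this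
      rw [this, PowerSeries.coeff_zero_eq_constantCoeff_apply]
    rw [h5, hau, h4, PowerSeries.coeff_zero_eq_constantCoeff_apply, map_pow]
  -- the coefficient of `y`
  have hy : ∃ a : k, algebraMap k L a = co 0 1 (r : PowerSeries (PowerSeries L)) := by
    apply root_mem p hL n
    have hd : X ∣ constantCoeff (r : PowerSeries (PowerSeries L)) := by
      rw [PowerSeries.X_dvd_iff]
      have := hr0
      simp only [co, PowerSeries.coeff_zero_eq_constantCoeff_apply] at this
      exact this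
    obtain ⟨w, hw⟩ := hd
    have h3 := congrArg (constantCoeff (R := PowerSeries L)) hS
    rw [map_add, map_mul, map_mul, map_pow, map_pow, map_pow, hw, PowerSeries.constantCoeff_X,
      zero_pow hq0, mul_zero, zero_add, PowerSeries.constantCoeff_C, mul_pow] at h3
    have h4 := congrArg (coeff (0 + q)) h3
    rw [PowerSeries.coeff_mul_X_pow, PowerSeries.coeff_X_pow_mul] at h4
    refine ⟨av, ?_⟩
    have h5 : co 0 1 (r : PowerSeries (PowerSeries L)) = constantCoeff w := by
      simp only [co, PowerSeries.coeff_zero_eq_constantCoeff_apply]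
      rw [hw, mul_comm]
      have := PowerSeries.coeff_succ_mul_X 0 w
      rw [zero_add] at this
      rw [this, PowerSeries.coeff_zero_eq_constantCoeff_apply]
    have h6 : co 0 0 (v : PowerSeries (PowerSeries L)) =
        coeff 0 (constantCoeff (v : PowerSeries (PowerSeries L))) := by
      simp only [co, PowerSeries.coeff_zero_eq_constantCoeff_apply]
    rw [h5, hav, h6, h4, PowerSeries.coeff_zero_eq_constantCoeff_apply, map_pow]
  obtain ⟨a, ha⟩ := hx
  obtain ⟨b, hb⟩ := hy
  have hdec : r = (cst c₁ c₂ a * xx c₁ h2 + cst c₁ c₂ b * yy c₂ h1) +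
      (r - (cst c₁ c₂ a * xx c₁ h2 + cst c₁ c₂ b * yy c₂ h1)) := by ring
  rw [hdec]
  refine Ideal.add_mem _ (Ideal.mem_span_pair.2 ⟨_, _, rfl⟩) (mem_span_of_M2 h1 h2 hc _ ?_)
  show M2 ((r : PowerSeries (PowerSeries L)) -
    (C (C (algebraMap k L a)) * X + C (C (algebraMap k L b)) * C X))
  refine ⟨?_, ?_, ?_⟩
  · rw [co_sub, co_add, co00_mul, co00_mul, co00_X, co00_Y, hr0]; ring
  · rw [co_sub, co_add, co10_mul, co10_mul, co00_X, co00_Y, co10_X, co10_Y, co00_CC, co10_CC,
      co00_CC, co10_CC, ha]; ring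
  · rw [co_sub, co_add, co01_mul, co01_mul, co00_X, co00_Y, co01_X, co01_Y, co00_CC, co01_CC,
      co00_CC, co01_CC, hb]; ring

/-- `I^[q]` is not Frobenius closed. -/
theorem not_closed (p : ℕ) (hp : p.Prime) (h1 : c₁ 1 = 0) (h2 : c₂ 1 = 0)
    (hc : ∀ a b : k, ∃ s : L, c₁ s = a ∧ c₂ s = b) (q : ℕ) (hq : 2 ≤ q) :
    ∃ z : Rg c₁ c₂, z ^ p ∈ Ideal.span {(xx c₁ h2 ^ q) ^ p, (yy c₂ h1 ^ q) ^ p} ∧
      z ∉ Ideal.span {xx c₁ h2 ^ q, yy c₂ h1 ^ q} := by
  obtain ⟨s, hs, -⟩ := hc 1 0
  have hq0 : q ≠ 0 := by omega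
  have h00 : co 0 0 (X ^ q : PowerSeries (PowerSeries L)) = 0 := by
    rw [co00_pow, co00_X, zero_pow hq0]
  have hz : M2 (C (C s) * C X * X ^ q : PowerSeries (PowerSeries L)) := by
    refine ⟨?_, ?_, ?_⟩
    · rw [co00_mul, h00, mul_zero]
    · rw [co10_mul, h00, co00_mul, co00_Y]; ring
    · rw [co01_mul, h00]
      have : co 0 1 (X ^ q : PowerSeries (PowerSeries L)) = 0 := by
        simp only [co, PowerSeries.coeff_X_pow]
        rw [if_neg (Ne.symm hq0), map_zero]
      rw [this]; ring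
  refine ⟨⟨C (C s) * C X * X ^ q, mem_of_M2 hz⟩, ?_, ?_⟩
  · have hw : M2 (C (C (s ^ p)) * C X ^ p : PowerSeries (PowerSeries L)) := by
      have h0 : co 0 0 (C X ^ p : PowerSeries (PowerSeries L)) = 0 := by
        rw [co00_pow, co00_Y, zero_pow hp.ne_zero]
      refine ⟨?_, ?_, ?_⟩
      · rw [co00_mul, h0, mul_zero]
      · rw [co10_mul, h0, co10_CC, zero_mul, add_zero, ← map_pow C X]
        simp only [co, PowerSeries.coeff_C]
        rw [if_neg one_ne_zero, map_zero, mul_zero]
      · rw [co01_mul, h0, co01_CC, zero_mul, add_zero, ← map_pow C X]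
        have : co 0 1 (C (X ^ p) : PowerSeries (PowerSeries L)) = 0 := by
          have hp2 := hp.two_le
          simp only [co, PowerSeries.coeff_zero_C, PowerSeries.coeff_X_pow]
          rw [if_neg (by omega)]
        rw [this, mul_zero]
    have e : (⟨C (C s) * C X * X ^ q, mem_of_M2 hz⟩ : Rg c₁ c₂) ^ p =
        (⟨C (C (s ^ p)) * C X ^ p, mem_of_M2 hw⟩ : Rg c₁ c₂) * (xx c₁ h2 ^ q) ^ p := by
      apply Subtype.ext
      show (C (C s) * C X * X ^ q) ^ p = (C (C (s ^ p)) * C X ^ p) * (X ^ q) ^ p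
      rw [mul_pow, mul_pow, map_pow, map_pow]
    rw [e]
    exact Ideal.mul_mem_left _ _ (Ideal.subset_span (by simp))
  · intro h
    rw [Ideal.mem_span_pair] at h
    obtain ⟨u, v, huv⟩ := h
    have hS : (u : PowerSeries (PowerSeries L)) * X ^ q + (v : PowerSeries (PowerSeries L)) *
        (C X) ^ q = C (C s) * C X * X ^ q := congrArg Subtype.val huv
    have hY : ∀ (i j : ℕ), j < 2 → co i j ((v : PowerSeries (PowerSeries L)) * (C X) ^ q) = 0 := by
      intro i j hj
      rw [← map_pow]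
      show coeff j (coeff i ((v : PowerSeries (PowerSeries L)) * C (X ^ q))) = 0
      rw [PowerSeries.coeff_mul_C, PowerSeries.coeff_mul_X_pow', if_neg (by omega)]
    have hX : ∀ (f : PowerSeries (PowerSeries L)) (i j : ℕ), co (i + q) j (f * X ^ q) =
        co i j f := by
      intro f i j
      show coeff j (coeff (i + q) (f * X ^ q)) = _
      rw [PowerSeries.coeff_mul_X_pow]
      rfl
    have hA := congrArg (co (0 + q) 1) hS
    have hB := congrArg (co (1 + q) 0) hS
    rw [co_add, hY _ _ (by norm_num), add_zero, hX, hX, co01_mul, co00_CC, co01_CC, co01_Y,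
      co00_Y] at hA
    rw [co_add, hY _ _ (by norm_num), add_zero, hX, hX, co10_mul, co00_CC, co10_CC, co10_Y,
      co00_Y] at hB
    obtain ⟨-, hu⟩ := mem_Rg.1 u.2
    rw [hA, hB] at hu
    simp only [mul_zero, mul_one, add_zero, map_zero, zero_add] at hu
    rw [hs] at hu
    exact one_ne_zero hu

end Pool.Agent.FrobDom
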