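import Mathlib

set_option autoImplicit false

open PowerSeries

/-!
# Frobenius closed parameter ideals in complete local domains: the ring

`R = {f ∈ L⟦x,y⟧ : f(0) ∈ k, c₂ (f_x(0)) + c₁ (f_y(0)) = 0}`.
-/

namespace Pool.Agent.FrobDom

/-- The coefficient of `x^i y^j` (the outer variable is `x`, the inner one `y`). -/
noncomputable def co {L : Type*} [CommRing L] (i j : ℕ) (f : PowerSeries (PowerSeries L)) : L :=
  coeff j (coeff i f)

section basic

variable {L : Type*} [CommRing L]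

lemma co_add (i j : ℕ) (f g : PowerSeries (PowerSeries L)) :
    co i j (f + g) = co i j f + co i j g := by simp [co]

lemma co_sub (i j : ℕ) (f g : PowerSeries (PowerSeries L)) :
    co i j (f - g) = co i j f - co i j g := by simp [co]

lemma co_neg (i j : ℕ) (f : PowerSeries (PowerSeries L)) :
    co i j (-f) = - co i j f := by simp [co]

lemma co_zero (i j : ℕ) : co i j (0 : PowerSeries (PowerSeries L)) = 0 := by simp [co]

lemma co00_one : co 0 0 (1 : PowerSeries (PowerSeries L)) = 1 := by simp [co]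

lemma co10_one : co 1 0 (1 : PowerSeries (PowerSeries L)) = 0 := by
  simp [co, PowerSeries.coeff_one]

lemma co01_one : co 0 1 (1 : PowerSeries (PowerSeries L)) = 0 := by
  simp [co, PowerSeries.coeff_one]

lemma co00_mul (f g : PowerSeries (PowerSeries L)) :
    co 0 0 (f * g) = co 0 0 f * co 0 0 g := by simp [co]

lemma co10_mul (f g : PowerSeries (PowerSeries L)) :
    co 1 0 (f * g) = co 0 0 f * co 1 0 g + co 1 0 f * co 0 0 g := by
  simp [co, PowerSeries.coeff_mul, Finset.Nat.antidiagonal_succ]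

lemma co01_mul (f g : PowerSeries (PowerSeries L)) :
    co 0 1 (f * g) = co 0 0 f * co 0 1 g + co 0 1 f * co 0 0 g := by
  simp [co, PowerSeries.coeff_mul, Finset.Nat.antidiagonal_succ]

lemma co00_pow (f : PowerSeries (PowerSeries L)) (n : ℕ) :
    co 0 0 (f ^ n) = co 0 0 f ^ n := by
  simp [co]

lemma co00_X : co 0 0 (X : PowerSeries (PowerSeries L)) = 0 := by simp [co]
lemma co10_X : co 1 0 (X : PowerSeries (PowerSeries L)) = 1 := by simp [co]
lemma co01_X : co 0 1 (X : PowerSeries (PowerSeries L)) = 0 := by simp [co]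
lemma co00_Y : co 0 0 (C X : PowerSeries (PowerSeries L)) = 0 := by simp [co]
lemma co10_Y : co 1 0 (C X : PowerSeries (PowerSeries L)) = 0 := by
  simp [co]
lemma co01_Y : co 0 1 (C X : PowerSeries (PowerSeries L)) = 1 := by simp [co]
lemma co00_CC (a : L) : co 0 0 (C (C a) : PowerSeries (PowerSeries L)) = a := by simp [co]
lemma co10_CC (a : L) : co 1 0 (C (C a) : PowerSeries (PowerSeries L)) = 0 := by
  simp [co]
lemma co01_CC (a : L) : co 0 1 (C (C a) : PowerSeries (PowerSeries L)) = 0 := by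
  simp [co, PowerSeries.coeff_C]

/-- power series of order at least two -/
def M2 (f : PowerSeries (PowerSeries L)) : Prop := co 0 0 f = 0 ∧ co 1 0 f = 0 ∧ co 0 1 f = 0

lemma M2.decomp {f : PowerSeries (PowerSeries L)} (h : M2 f) :
    ∃ (A : PowerSeries (PowerSeries L)) (b c : PowerSeries L),
      f = X ^ 2 * A + X * C (X * b) + C (X ^ 2 * c) := by
  obtain ⟨h0, h1, h2⟩ := h
  have hb : X ∣ coeff 1 f := by
    rw [PowerSeries.X_dvd_iff, ← PowerSeries.coeff_zero_eq_constantCoeff_apply]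
    exact h1
  obtain ⟨b, hb⟩ := hb
  have hc : X ^ 2 ∣ coeff 0 f := by
    rw [PowerSeries.X_pow_dvd_iff]
    intro m hm
    interval_cases m
    · exact h0
    · exact h2
  obtain ⟨c, hc⟩ := hc
  have hA : X ^ 2 ∣ f - (X * C (coeff 1 f) + C (coeff 0 f)) := by
    rw [PowerSeries.X_pow_dvd_iff]
    intro m hm
    interval_cases m
    · simp
    · simp [PowerSeries.coeff_X]
  obtain ⟨A, hA⟩ := hA
  refine ⟨A, b, c, ?_⟩
  rw [← hb, ← hc, ← hA]
  ring

end basic

variable {k L : Type*} [Field k] [CommRing L] [Algebra k L]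

/-- The ring `{f ∈ L⟦x,y⟧ : f(0) ∈ k, c₂ (f_x(0)) + c₁ (f_y(0)) = 0}`. -/
def Rg (c₁ c₂ : L →ₗ[k] k) :
    Subring (PowerSeries (PowerSeries L)) where
  carrier := {f | (∃ a : k, algebraMap k L a = co 0 0 f) ∧ c₂ (co 1 0 f) + c₁ (co 0 1 f) = 0}
  mul_mem' := by
    rintro f g ⟨⟨a, ha⟩, hf⟩ ⟨⟨b, hb⟩, hg⟩
    refine ⟨⟨a * b, by rw [map_mul, ha, hb, co00_mul]⟩, ?_⟩
    rw [co10_mul, co01_mul, ← ha, ← hb]
    have e1 : ∀ (z : k) (w : L), algebraMap k L z * w = z • w := fun z w =>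
      (Algebra.smul_def z w).symm
    have e2 : ∀ (z : k) (w : L), w * algebraMap k L z = z • w := fun z w => by
      rw [mul_comm, e1]
    simp only [e1, e2, map_add, map_smul, smul_eq_mul]
    linear_combination a * hg + b * hf
  one_mem' := by
    refine ⟨⟨1, by rw [map_one, co00_one]⟩, ?_⟩
    rw [co10_one, co01_one, map_zero, map_zero, add_zero]
  add_mem' := by
    rintro f g ⟨⟨a, ha⟩, hf⟩ ⟨⟨b, hb⟩, hg⟩
    refine ⟨⟨a + b, by rw [map_add, ha, hb, co_add]⟩, ?_⟩
    rw [co_add, co_add, map_add, map_add]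
    linear_combination hf + hg
  zero_mem' := by
    refine ⟨⟨0, by rw [map_zero, co_zero]⟩, ?_⟩
    rw [co_zero, co_zero, map_zero, map_zero, add_zero]
  neg_mem' := by
    rintro f ⟨⟨a, ha⟩, hf⟩
    refine ⟨⟨-a, by rw [map_neg, ha, co_neg]⟩, ?_⟩
    rw [co_neg, co_neg, map_neg, map_neg]
    linear_combination -hf

section ring

variable {c₁ c₂ : L →ₗ[k] k}

lemma mem_Rg {f : PowerSeries (PowerSeries L)} : f ∈ Rg c₁ c₂ ↔
    (∃ a : k, algebraMap k L a = co 0 0 f) ∧ c₂ (co 1 0 f) + c₁ (co 0 1 f) = 0 := Iff.rfl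

lemma mem_of_M2 {f : PowerSeries (PowerSeries L)} (h : M2 f) : f ∈ Rg c₁ c₂ := by
  obtain ⟨h0, hx, hy⟩ := h
  rw [mem_Rg, h0, hx, hy]
  exact ⟨⟨0, map_zero _⟩, by simp⟩

/-- The element `x` of `R`. -/
noncomputable def xx (c₁ : L →ₗ[k] k) {c₂ : L →ₗ[k] k} (h2 : c₂ 1 = 0) : Rg c₁ c₂ :=
  ⟨X, by
    rw [mem_Rg, co00_X, co10_X, co01_X]
    exact ⟨⟨0, map_zero _⟩, by simp [h2]⟩⟩

/-- The element `y` of `R`. -/
noncomputable def yy {c₁ : L →ₗ[k] k} (c₂ : L →ₗ[k] k) (h1 : c₁ 1 = 0) : Rg c₁ c₂ :=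
  ⟨C X, by
    rw [mem_Rg, co00_Y, co10_Y, co01_Y]
    exact ⟨⟨0, map_zero _⟩, by simp [h1]⟩⟩

/-- The constants of `R`. -/
noncomputable def cst (c₁ c₂ : L →ₗ[k] k) (a : k) :
    Rg c₁ c₂ :=
  ⟨C (C (algebraMap k L a)), by
    rw [mem_Rg, co00_CC, co10_CC, co01_CC]
    exact ⟨⟨a, rfl⟩, by simp⟩⟩

/-- `(x,y)R` contains all power series of order at least two. -/
lemma mem_span_of_M2 (h1 : c₁ 1 = 0) (h2 : c₂ 1 = 0)
    (hc : ∀ a b : k, ∃ s : L, c₁ s = a ∧ c₂ s = b)
    (r : Rg c₁ c₂) (h : M2 (r : PowerSeries (PowerSeries L))) :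
    r ∈ Ideal.span {xx c₁ h2, yy c₂ h1} := by
  obtain ⟨A, b, c, hf⟩ := h.decomp
  obtain ⟨β, hβ1, hβ2⟩ := hc (-(c₂ (co 0 0 A)))
    (c₂ (constantCoeff b) + c₁ (constantCoeff c))
  have hr1 : X * A + C X * C (C β) ∈ Rg c₁ c₂ := by
    rw [mem_Rg, co_add, co_add, co_add, co00_mul, co00_mul, co10_mul, co10_mul, co01_mul,
      co01_mul, co00_X, co10_X, co01_X, co00_Y, co10_Y, co01_Y, co00_CC, co10_CC, co01_CC]
    refine ⟨⟨0, by simp⟩, ?_⟩
    simp only [zero_mul, one_mul, zero_add, mul_zero, add_zero]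
    rw [hβ1]
    ring
  have hr2 : X * C b - X * C (C β) + C (X * c) ∈ Rg c₁ c₂ := by
    have e1 : co 0 0 (C b : PowerSeries (PowerSeries L)) = constantCoeff b := by simp [co]
    have e2 : co 0 0 (C (X * c) : PowerSeries (PowerSeries L)) = 0 := by simp [co]
    have e3 : co 1 0 (C (X * c) : PowerSeries (PowerSeries L)) = 0 := by
      simp [co]
    have e4 : co 0 1 (C (X * c) : PowerSeries (PowerSeries L)) = constantCoeff c := by
      simp [co]
    rw [mem_Rg, co_add, co_add, co_add, co_sub, co_sub, co_sub, co00_mul, co00_mul, co10_mul,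
      co10_mul, co01_mul, co01_mul, co00_X, co10_X, co01_X, e1, e2, e3, e4, co00_CC, co10_CC,
      co01_CC]
    refine ⟨⟨0, by simp⟩, ?_⟩
    simp only [zero_mul, one_mul, zero_add, mul_zero, add_zero, sub_self, map_sub]
    rw [hβ2]
    ring
  rw [Ideal.mem_span_pair]
  refine ⟨⟨_, hr1⟩, ⟨_, hr2⟩, ?_⟩
  apply Subtype.ext
  show (X * A + C X * C (C β)) * X + (X * C b - X * C (C β) + C (X * c)) * C X = _
  rw [hf]
  simp only [map_mul, map_pow]
  ring

/-- Units of `R`. -/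
lemma isUnit_iff' [Nontrivial L] (r : Rg c₁ c₂) :
    IsUnit r ↔ co 0 0 (r : PowerSeries (PowerSeries L)) ≠ 0 := by
  constructor
  · intro hu h0
    obtain ⟨u, hu⟩ := hu
    have h' : co 0 0 (((u : Rg c₁ c₂) : PowerSeries (PowerSeries L)) *
      (((u⁻¹ : (Rg c₁ c₂)ˣ) : Rg c₁ c₂) : PowerSeries (PowerSeries L))) = 1 := by
      rw [← co00_one (L := L)]
      exact congrArg (fun z : Rg c₁ c₂ => co 0 0 (z : PowerSeries (PowerSeries L))) u.mul_inv
    rw [co00_mul, hu, h0, zero_mul] at h'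
    exact zero_ne_one h'
  · intro h
    obtain ⟨⟨a, ha⟩, hr⟩ := mem_Rg.1 r.2
    have ha0 : a ≠ 0 := by
      rintro rfl
      exact h (by rw [← ha, map_zero])
    have hu : IsUnit (r : PowerSeries (PowerSeries L)) := by
      rw [PowerSeries.isUnit_iff_constantCoeff, PowerSeries.isUnit_iff_constantCoeff]
      have : constantCoeff (constantCoeff (r : PowerSeries (PowerSeries L))) =
        algebraMap k L a := by rw [ha]; simp [co]
      rw [this]
      exact (isUnit_iff_ne_zero.2 ha0).map _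
    obtain ⟨u, hu⟩ := hu
    set g : PowerSeries (PowerSeries L) := ((u⁻¹ : (PowerSeries (PowerSeries L))ˣ) :
      PowerSeries (PowerSeries L)) with hg
    have hrg : (r : PowerSeries (PowerSeries L)) * g = 1 := by rw [← hu]; exact u.mul_inv
    have g00 : co 0 0 g = algebraMap k L a⁻¹ := by
      have h3 := congrArg (co 0 0) hrg
      rw [co00_mul, co00_one, ← ha] at h3
      calc co 0 0 g = algebraMap k L (a⁻¹ * a) * co 0 0 g := by
            rw [inv_mul_cancel₀ ha0, map_one, one_mul]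
        _ = algebraMap k L a⁻¹ * (algebraMap k L a * co 0 0 g) := by rw [map_mul]; ring
        _ = _ := by rw [h3, mul_one]
    have g10 : co 1 0 g = -(a⁻¹ * a⁻¹) • co 1 0 (r : PowerSeries (PowerSeries L)) := by
      have h3 := congrArg (co 1 0) hrg
      rw [co10_mul, co10_one, ← ha, g00] at h3
      calc co 1 0 g = algebraMap k L (a⁻¹ * a) * co 1 0 g := by
            rw [inv_mul_cancel₀ ha0, map_one, one_mul]
        _ = algebraMap k L a⁻¹ * (algebraMap k L a * co 1 0 g) := by rw [map_mul]; ring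
        _ = algebraMap k L a⁻¹ * (-(co 1 0 (r : PowerSeries (PowerSeries L)) *
              algebraMap k L a⁻¹)) := by rw [eq_neg_of_add_eq_zero_left h3]
        _ = _ := by rw [Algebra.smul_def, map_neg, map_mul]; ring
    have g01 : co 0 1 g = -(a⁻¹ * a⁻¹) • co 0 1 (r : PowerSeries (PowerSeries L)) := by
      have h3 := congrArg (co 0 1) hrg
      rw [co01_mul, co01_one, ← ha, g00] at h3
      calc co 0 1 g = algebraMap k L (a⁻¹ * a) * co 0 1 g := by
            rw [inv_mul_cancel₀ ha0, map_one, one_mul]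
        _ = algebraMap k L a⁻¹ * (algebraMap k L a * co 0 1 g) := by rw [map_mul]; ring
        _ = algebraMap k L a⁻¹ * (-(co 0 1 (r : PowerSeries (PowerSeries L)) *
              algebraMap k L a⁻¹)) := by rw [eq_neg_of_add_eq_zero_left h3]
        _ = _ := by rw [Algebra.smul_def, map_neg, map_mul]; ring
    have hgR : g ∈ Rg c₁ c₂ := by
      rw [mem_Rg]
      refine ⟨⟨a⁻¹, g00.symm⟩, ?_⟩
      rw [g10, g01, map_smul, map_smul, smul_eq_mul, smul_eq_mul]
      linear_combination -(a⁻¹ * a⁻¹) * hr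
    exact IsUnit.of_mul_eq_one ⟨g, hgR⟩ (Subtype.ext hrg)

end ring

end Pool.Agent.FrobDom
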